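import Pool.Agent.H65.AD.TargetsB
import Pool.Agent.H20.CN.DSE

/-! Row EOM of the board adm_modules: the moments of the diagonal element. -/

set_option autoImplicit false

open scoped Real

namespace Pool.Agent.H60.AD

open Pool.Agent.H31.CN Pool.Agent.H65.AD Pool.Agent.H50.CN Pool.Agent.H20.CN

/-- powers of the symbols -/
lemma eom_prod_E (t : Finset ℕ) : ∏ p ∈ t, E (2 * Real.log p) (2 * Real.log p) =
    E (2 * ∑ p ∈ t, Real.log p) (2 * ∑ p ∈ t, Real.log p) := by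
  classical
  induction t using Finset.induction_on with
  | empty => simp [E_zero]
  | insert a s ha ih =>
    rw [Finset.prod_insert ha, ih, E_mul, Finset.sum_insert ha, mul_add]

lemma eom_prod_eo (s : Finset ℕ) : ∏ p ∈ s, eo p = ∑ t ∈ s.powerset,
    ((∏ p ∈ t, (-(1 / (p : ℝ) ^ 3))) * ∏ p ∈ s \ t, (1 / (p : ℝ))) •
      E (2 * ∑ p ∈ t, Real.log p) (2 * ∑ p ∈ t, Real.log p) := by
  classical
  have h : ∀ p : ℕ, eo p = (-(1 / (p : ℝ) ^ 3)) • E (2 * Real.log p) (2 * Real.log p) +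
      (1 / (p : ℝ)) • (1 : GR) := by
    intro p
    unfold eo
    rw [neg_smul]
    abel
  rw [Finset.prod_congr rfl fun p _ => h p, Finset.prod_add]
  refine Finset.sum_congr rfl fun t _ => ?_
  rw [Finset.prod_smul, Finset.prod_smul, Finset.prod_const_one, eom_prod_E, smul_mul_smul_comm,
    mul_one]

theorem eom_BD_eo {p : ℕ} (hp : p.Prime) : BD (2 / p) (2 * Real.log p) (eo p) := by
  have h1 : (1 : ℝ) ≤ p := by exact_mod_cast hp.one_lt.le
  have h0 : (0 : ℝ) < p := by linarith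
  have hl : 0 ≤ 2 * Real.log p := by
    have := Real.log_nonneg h1
    linarith
  have hz : |2 * Real.log p| ≤ 2 * Real.log p := (abs_of_nonneg hl).le
  have h2 : BD (|1 / (p : ℝ)| * 1 + |-(1 / (p : ℝ) ^ 3)| * 1) (2 * Real.log p)
      ((1 / (p : ℝ)) • (1 : GR) + (-(1 / (p : ℝ) ^ 3)) • E (2 * Real.log p) (2 * Real.log p)) :=
    BD_add (BD_smul (BD_mono BD_one le_rfl hl) _) (BD_smul (BD_E hz hz) _)
  have h3 : eo p = (1 / (p : ℝ)) • (1 : GR) +
      (-(1 / (p : ℝ) ^ 3)) • E (2 * Real.log p) (2 * Real.log p) := by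
    unfold eo
    rw [neg_smul, sub_eq_add_neg]
  rw [h3]
  refine BD_mono h2 ?_ le_rfl
  rw [abs_neg, abs_of_pos (by positivity : (0 : ℝ) < 1 / (p : ℝ)),
    abs_of_pos (by positivity : (0 : ℝ) < 1 / (p : ℝ) ^ 3), mul_one, mul_one]
  have h4 : 1 / (p : ℝ) ^ 3 ≤ 1 / p := by
    apply one_div_le_one_div_of_le h0
    calc (p : ℝ) = p ^ 1 := (pow_one _).symm
      _ ≤ p ^ 3 := pow_le_pow_right₀ h1 (by norm_num)
  calc 1 / (p : ℝ) + 1 / (p : ℝ) ^ 3 ≤ 1 / p + 1 / p := by linarith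
    _ = 2 / p := by ring

theorem pf_EOM (_hMOM : T_MOM) : T_EOM := by
  classical
  obtain ⟨C, hC, hprod⟩ := prod_le_of_rpow (A := 1) zero_le_one
  refine ⟨1728 * C, by positivity, fun d hd => ⟨fun i j hij => ?_, ?_⟩⟩
  · have hd0 : d ≠ 0 := hd.ne_zero
    have hdp : (0 : ℝ) < d := by exact_mod_cast Nat.pos_of_ne_zero hd0
    have hpos : ∀ p ∈ d.primeFactors, (0 : ℝ) < p := fun p hp => by
      exact_mod_cast (Nat.prime_of_mem_primeFactors hp).pos
    have hprodd : ∏ p ∈ d.primeFactors, (1 / (p : ℝ)) = 1 / d := by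
      rw [Finset.prod_div_distrib, Finset.prod_const_one]
      congr 1
      rw [← Nat.cast_prod, Nat.prod_primeFactors_of_squarefree hd]
    rw [eom_prod_eo, map_sum]
    refine (Finset.abs_sum_le_sum_abs _ _).trans ?_
    have hterm : ∀ t ∈ d.primeFactors.powerset,
        |mo i j (((∏ p ∈ t, (-(1 / (p : ℝ) ^ 3))) * ∏ p ∈ d.primeFactors \ t, (1 / (p : ℝ))) •
          E (2 * ∑ p ∈ t, Real.log p) (2 * ∑ p ∈ t, Real.log p))| ≤
        1728 / d * ∏ p ∈ t, (p : ℝ) ^ (-(3 / 2) : ℝ) := by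
      intro t ht
      rw [Finset.mem_powerset] at ht
      rw [map_smul, mo_E, ← pow_add, smul_eq_mul, abs_mul, abs_mul, Finset.abs_prod,
        Finset.abs_prod]
      have e1 : ∀ p ∈ t, |-(1 / (p : ℝ) ^ 3)| = 1 / (p : ℝ) * (1 / (p : ℝ) ^ 2) := fun p hp => by
        have := hpos p (ht hp)
        rw [abs_neg, abs_of_pos (by positivity)]
        field_simp
      have e2 : ∀ p ∈ d.primeFactors \ t, |1 / (p : ℝ)| = 1 / (p : ℝ) := fun p hp => by
        have := hpos p (Finset.mem_sdiff.1 hp).1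
        exact abs_of_pos (by positivity)
      rw [Finset.prod_congr rfl e1, Finset.prod_congr rfl e2, Finset.prod_mul_distrib]
      have e3 : (∏ p ∈ t, (1 / (p : ℝ))) * (∏ p ∈ t, (1 / (p : ℝ) ^ 2)) *
          ∏ p ∈ d.primeFactors \ t, (1 / (p : ℝ)) = 1 / d * ∏ p ∈ t, (1 / (p : ℝ) ^ 2) := by
        rw [← hprodd, ← Finset.prod_sdiff ht]
        ring
      rw [e3]
      -- the logarithm
      obtain ⟨g, hg⟩ : ∃ g : ℝ, g = ∏ p ∈ t, (p : ℝ) := ⟨_, rfl⟩
      have hg1 : 1 ≤ g := by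
        rw [hg, ← Nat.cast_prod]
        exact_mod_cast Nat.one_le_iff_ne_zero.2 (Finset.prod_ne_zero_iff.2 fun p hp =>
          (Nat.prime_of_mem_primeFactors (ht hp)).ne_zero)
      have hgl : ∑ p ∈ t, Real.log p = Real.log g := by
        rw [hg, Real.log_prod fun p hp => (hpos p (ht hp)).ne']
      have hl0 : 0 ≤ 2 * Real.log g := by
        have := Real.log_nonneg hg1
        linarith
      have hlog : 2 * Real.log g ≤ 12 * g ^ (1 / 6 : ℝ) := by
        have := Real.log_le_rpow_div (x := g) (by linarith) (by norm_num : (0 : ℝ) < 1 / 6)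
        linarith
      have h6 : 1 ≤ 12 * g ^ (1 / 6 : ℝ) := by
        have := Real.one_le_rpow hg1 (by norm_num : (0 : ℝ) ≤ 1 / 6)
        linarith
      have hpow : |(2 * Real.log g) ^ (i + j)| ≤ 1728 * g ^ (1 / 2 : ℝ) := by
        rw [abs_of_nonneg (pow_nonneg hl0 _)]
        calc (2 * Real.log g) ^ (i + j) ≤ (12 * g ^ (1 / 6 : ℝ)) ^ (i + j) :=
              pow_le_pow_left₀ hl0 hlog _
          _ ≤ (12 * g ^ (1 / 6 : ℝ)) ^ 3 := pow_le_pow_right₀ h6 hij
          _ = 1728 * g ^ (1 / 2 : ℝ) := by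
              rw [mul_pow, ← Real.rpow_natCast (g ^ (1 / 6 : ℝ)) 3, ← Real.rpow_mul (by linarith)]
              norm_num
      rw [hgl]
      have e4 : g ^ (1 / 2 : ℝ) = ∏ p ∈ t, (p : ℝ) ^ (1 / 2 : ℝ) := by
        rw [hg]
        exact (Real.finsetProd_rpow _ _ (fun p hp => (hpos p (ht hp)).le) _).symm
      have hq : 0 ≤ 1 / (d : ℝ) * ∏ p ∈ t, (1 / (p : ℝ) ^ 2) :=
        mul_nonneg (by positivity) (Finset.prod_nonneg fun p _ => by positivity)
      refine (mul_le_mul_of_nonneg_left hpow hq).trans (le_of_eq ?_)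
      rw [e4]
      have e5 : (∏ p ∈ t, (1 / (p : ℝ) ^ 2)) * ∏ p ∈ t, (p : ℝ) ^ (1 / 2 : ℝ) =
          ∏ p ∈ t, (p : ℝ) ^ (-(3 / 2) : ℝ) := by
        rw [← Finset.prod_mul_distrib]
        refine Finset.prod_congr rfl fun p hp => ?_
        have := hpos p (ht hp)
        rw [one_div, ← Real.rpow_natCast, ← Real.rpow_neg this.le, ← Real.rpow_add this]
        norm_num
      rw [← e5]
      ring
    refine (Finset.sum_le_sum hterm).trans ?_
    rw [← Finset.mul_sum, ← Finset.prod_one_add]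
    have h9 := hprod d.primeFactors (fun p => (p : ℝ) ^ (-(3 / 2) : ℝ)) fun p _ =>
      ⟨by positivity, by rw [one_mul]⟩
    calc 1728 / (d : ℝ) * ∏ p ∈ d.primeFactors, (1 + (p : ℝ) ^ (-(3 / 2) : ℝ)) ≤
          1728 / (d : ℝ) * C := mul_le_mul_of_nonneg_left h9 (by positivity)
      _ = 1728 * C / d := by ring
  · have h1 := BD_prod d.primeFactors (V := fun p => 2 / (p : ℝ))
      (Z := fun p => 2 * Real.log p) (r := fun p => eo p) (fun p _ => by positivity)
      (fun p hp => eom_BD_eo (Nat.prime_of_mem_primeFactors hp))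
    rw [prod_eq hd, ← Finset.mul_sum, sum_eq hd] at h1
    exact h1

end Pool.Agent.H60.AD
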