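import Pool.Agent.H65.AD.TargetsA
import Pool.Agent.H46.AD.NRF

/-! Row NRR of the board adm_modules: roots modulo prime powers. -/

set_option autoImplicit false

namespace Pool.Agent.H60.AD

open Pool.Agent.H31.CN Pool.Agent.H65.AD

lemma nrr_sub (C x y : ℤ) : (1 * x ^ 2 + 1 * x + C) - (1 * y ^ 2 + 1 * y + C) =
    (x - y) * (x + y + 1) := by ring

/-- simple roots lift uniquely -/
lemma nrr_hensel (p : ℕ) (hp : p.Prime) (C : ℤ) (k : ℕ) (hk : 1 ≤ k)
    (h : ∀ j : ℤ, (p : ℤ) ∣ 1 * j ^ 2 + 1 * j + C → ¬ (p : ℤ) ∣ 2 * j + 1) :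
    nrt (p ^ (k + 1)) 1 1 C = nrt (p ^ k) 1 1 C := by
  have hp0 : 0 < p := hp.pos
  have hpr : Prime (p : ℤ) := Nat.prime_iff_prime_int.mp hp
  have hpk : (p : ℤ) ∣ (p : ℤ) ^ k := dvd_pow_self _ (by omega)
  have hkk : (p : ℤ) ^ k ∣ (p : ℤ) ^ (k + 1) := pow_dvd_pow _ (by omega)
  unfold nrt
  refine Finset.card_bij (fun j _ => j % p ^ k) ?_ ?_ ?_
  · intro j hj
    obtain ⟨h1, h2⟩ := Finset.mem_filter.1 hj
    refine Finset.mem_filter.2 ⟨Finset.mem_range.2 (Nat.mod_lt _ (pow_pos hp0 k)), ?_⟩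
    push_cast at h2 ⊢
    have h3 : (p : ℤ) ^ k ∣ (j : ℤ) - (j : ℤ) % (p : ℤ) ^ k := Int.dvd_self_sub_emod
    have h4 := nrr_sub C (j : ℤ) ((j : ℤ) % (p : ℤ) ^ k)
    have h5 : (p : ℤ) ^ k ∣ (1 * (j : ℤ) ^ 2 + 1 * (j : ℤ) + C) -
        (1 * ((j : ℤ) % (p : ℤ) ^ k) ^ 2 + 1 * ((j : ℤ) % (p : ℤ) ^ k) + C) := by
      rw [h4]
      exact Dvd.dvd.mul_right h3 _
    exact (dvd_sub_right (hkk.trans h2)).1 h5
  · intro i hi j hj hij
    obtain ⟨hi1, hi2⟩ := Finset.mem_filter.1 hi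
    obtain ⟨hj1, hj2⟩ := Finset.mem_filter.1 hj
    push_cast at hi2 hj2
    have h3 : (p : ℤ) ^ k ∣ (i : ℤ) - (j : ℤ) := by
      have h6 : (j : ℤ) ≡ i [ZMOD ((p ^ k : ℕ) : ℤ)] := by
        rw [Int.natCast_modEq_iff]
        exact hij.symm
      have := h6.dvd
      push_cast at this
      exact this
    have h4 : (p : ℤ) ^ (k + 1) ∣ ((i : ℤ) - j) * ((i : ℤ) + j + 1) := by
      rw [← nrr_sub C]
      exact dvd_sub hi2 hj2
    have h5 : ¬ (p : ℤ) ∣ (i : ℤ) + j + 1 := by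
      intro h6
      refine h i ((hpk.trans hkk).trans hi2) ?_
      have h7 : 2 * (i : ℤ) + 1 = ((i : ℤ) + j + 1) + ((i : ℤ) - j) := by ring
      rw [h7]
      exact dvd_add h6 (hpk.trans h3)
    have h6 : IsCoprime ((p : ℤ) ^ (k + 1)) ((i : ℤ) + j + 1) :=
      IsCoprime.pow_left ((Prime.coprime_iff_not_dvd hpr).2 h5)
    have h7 : (p : ℤ) ^ (k + 1) ∣ (i : ℤ) - j := h6.dvd_of_dvd_mul_right h4
    have h8 : |(i : ℤ) - j| < (p : ℤ) ^ (k + 1) := by
      have h9 : (i : ℤ) < (p : ℤ) ^ (k + 1) := by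
        have := Finset.mem_range.1 hi1
        exact_mod_cast this
      have h10 : (j : ℤ) < (p : ℤ) ^ (k + 1) := by
        have := Finset.mem_range.1 hj1
        exact_mod_cast this
      rw [abs_lt]
      constructor <;> omega
    have h9 := Int.eq_zero_of_abs_lt_dvd h7 h8
    omega
  · intro b hb
    obtain ⟨hb1, hb2⟩ := Finset.mem_filter.1 hb
    push_cast at hb2
    have h1 : IsCoprime (p : ℤ) (2 * (b : ℤ) + 1) :=
      (Prime.coprime_iff_not_dvd hpr).2 (h b (hpk.trans hb2))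
    obtain ⟨a, u, hau⟩ := h1
    obtain ⟨c, hc⟩ := hb2
    obtain ⟨j0, hj0⟩ : ∃ j0 : ℤ, j0 = b - (p : ℤ) ^ k * c * u := ⟨_, rfl⟩
    obtain ⟨e, he⟩ : (p : ℤ) ^ (k + 1) ∣ ((p : ℤ) ^ k) ^ 2 := by
      rw [← pow_mul]
      exact pow_dvd_pow _ (by omega)
    have h2 : (p : ℤ) ^ (k + 1) ∣ 1 * j0 ^ 2 + 1 * j0 + C := by
      have h3 : 1 * j0 ^ 2 + 1 * j0 + C = (p : ℤ) ^ (k + 1) * (c * a + e * (c * u) ^ 2) := by
        have e1 : 1 * j0 ^ 2 + 1 * j0 + C = (1 * (b : ℤ) ^ 2 + 1 * (b : ℤ) + C) -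
            (p : ℤ) ^ k * c * (u * (2 * b + 1)) + ((p : ℤ) ^ k) ^ 2 * (c * u) ^ 2 := by
          rw [hj0]; ring
        have e2 : u * (2 * (b : ℤ) + 1) = 1 - a * p := by linear_combination hau
        rw [e1, hc, e2, he, pow_succ]
        ring
      rw [h3]
      exact dvd_mul_right _ _
    have hpos : (0 : ℤ) < (p : ℤ) ^ (k + 1) := by positivity
    obtain ⟨j, hj⟩ : ∃ j : ℕ, (j : ℤ) = j0 % (p : ℤ) ^ (k + 1) :=
      ⟨(j0 % (p : ℤ) ^ (k + 1)).toNat, Int.toNat_of_nonneg (Int.emod_nonneg _ hpos.ne')⟩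
    have h3 : (p : ℤ) ^ (k + 1) ∣ j0 - j := by
      rw [hj]
      exact Int.dvd_self_sub_emod
    refine ⟨j, Finset.mem_filter.2 ⟨Finset.mem_range.2 ?_, ?_⟩, ?_⟩
    · have h4 : (j : ℤ) < (p : ℤ) ^ (k + 1) := by
        rw [hj]
        exact Int.emod_lt_of_pos _ hpos
      exact_mod_cast h4
    · push_cast
      have h5 : (p : ℤ) ^ (k + 1) ∣ (1 * j0 ^ 2 + 1 * j0 + C) -
          (1 * (j : ℤ) ^ 2 + 1 * (j : ℤ) + C) := by
        rw [nrr_sub]
        exact Dvd.dvd.mul_right h3 _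
      exact (dvd_sub_right h2).1 h5
    · have h4 : (p : ℤ) ^ k ∣ (b : ℤ) - j := by
        have h5 : (b : ℤ) - j = (j0 - j) + (p : ℤ) ^ k * (c * u) := by
          rw [hj0]; ring
        rw [h5]
        exact dvd_add (hkk.trans h3) (dvd_mul_right _ _)
      have h5 : j ≡ b [MOD p ^ k] := by
        rw [← Int.natCast_modEq_iff]
        refine (Int.modEq_iff_dvd).2 ?_
        push_cast
        exact h4
      have h6 : j % p ^ k = b % p ^ k := h5
      show j % p ^ k = b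
      rw [h6, Nat.mod_eq_of_lt (Finset.mem_range.1 hb1)]

theorem pf_NRR : T_NRR := by
  intro D p k h4 hsf hp hk
  have hpr : Prime (p : ℤ) := Nat.prime_iff_prime_int.mp hp
  obtain ⟨C, hC⟩ : ∃ C : ℤ, C = ((D : ℤ) + 1) / 4 := ⟨_, rfl⟩
  rw [← hC]
  have hCD : 4 * C - 1 = (D : ℤ) := by
    rw [hC]
    omega
  have hp1 : ¬ (p : ℤ) ∣ 1 := fun h => hpr.not_unit (isUnit_of_dvd_one h)
  have hone := Pool.Agent.H46.AD.one p D 1 1 C hp h4 hsf (by linarith)
  rw [if_neg hp1, sub_zero] at hone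
  have hkey : ∀ j : ℤ, (2 * j + 1) ^ 2 = 4 * (1 * j ^ 2 + 1 * j + C) - D := by
    intro j
    rw [← hCD]
    ring
  by_cases hpD : p ∣ D
  · rw [if_pos hpD]
    have hpDZ : (p : ℤ) ∣ D := by exact_mod_cast hpD
    by_cases h1 : k = 1
    · subst h1
      rw [if_pos rfl, pow_one, hone]
      -- the character vanishes
      have h2 : p ≠ 2 := by
        rintro rfl
        obtain ⟨e, he⟩ := hpD
        omega
      have h3 : nrt p 1 0 (D : ℤ) = 1 := by
        unfold nrt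
        rw [Finset.card_eq_one]
        refine ⟨0, ?_⟩
        ext j
        rw [Finset.mem_filter, Finset.mem_singleton, Finset.mem_range]
        constructor
        · rintro ⟨h5, h6⟩
          have h7 : (p : ℤ) ∣ (j : ℤ) ^ 2 := by
            have h8 : (j : ℤ) ^ 2 = (1 * (j : ℤ) ^ 2 + 0 * (j : ℤ) + D) - D := by ring
            rw [h8]
            exact dvd_sub h6 hpDZ
          have h8 : (p : ℤ) ∣ (j : ℤ) := hpr.dvd_of_dvd_pow h7
          have h9 : p ∣ j := by exact_mod_cast h8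
          exact Nat.eq_zero_of_dvd_of_lt h9 h5
        · rintro rfl
          refine ⟨hp.pos, ?_⟩
          simpa using hpDZ
      have h5 : chi p D = 0 := by
        unfold chi
        rw [if_neg h2, h3]
        norm_num
      rw [h5]
      norm_num
    · rw [if_neg h1]
      have h2 : nrt (p ^ k) 1 1 C = 0 := by
        refine Pool.Agent.H46.AD.nrt_zero _ _ _ _ fun j hj => ?_
        push_cast at hj
        have h3 : (p : ℤ) ^ 2 ∣ 1 * j ^ 2 + 1 * j + C :=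
          (pow_dvd_pow _ (by omega)).trans hj
        have h5 : (p : ℤ) ∣ (2 * j + 1) ^ 2 := by
          rw [hkey]
          exact dvd_sub (Dvd.dvd.mul_left ((dvd_pow_self _ (by norm_num)).trans h3) _) hpDZ
        have h6 : (p : ℤ) ^ 2 ∣ (2 * j + 1) ^ 2 := pow_dvd_pow_of_dvd (hpr.dvd_of_dvd_pow h5) 2
        have h7 : (p : ℤ) ^ 2 ∣ (D : ℤ) := by
          have h8 : (D : ℤ) = 4 * (1 * j ^ 2 + 1 * j + C) - (2 * j + 1) ^ 2 := by
            rw [hkey]; ring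
          rw [h8]
          exact dvd_sub (Dvd.dvd.mul_left h3 _) h6
        exact Pool.Agent.H46.AD.sqf p D hp hsf h7
      rw [h2]
      norm_num
  · rw [if_neg hpD]
    have hpDZ : ¬ (p : ℤ) ∣ D := by
      intro h
      exact hpD (by exact_mod_cast h)
    have hder : ∀ j : ℤ, (p : ℤ) ∣ 1 * j ^ 2 + 1 * j + C → ¬ (p : ℤ) ∣ 2 * j + 1 := by
      intro j hj hd
      apply hpDZ
      have h8 : (D : ℤ) = 4 * (1 * j ^ 2 + 1 * j + C) - (2 * j + 1) ^ 2 := by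
        rw [hkey]; ring
      rw [h8]
      exact dvd_sub (Dvd.dvd.mul_left hj _) (dvd_pow hd (by norm_num))
    have hall : ∀ m : ℕ, nrt (p ^ (m + 1)) 1 1 C = nrt p 1 1 C := by
      intro m
      induction m with
      | zero => rw [zero_add, pow_one]
      | succ m ih => rw [nrr_hensel p hp C (m + 1) (by omega) hder, ih]
    obtain ⟨m, rfl⟩ : ∃ m, k = m + 1 := ⟨k - 1, by omega⟩
    rw [hall, hone]

end Pool.Agent.H60.AD
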