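import Pool.Agent.H65.AD.TargetsA
import Pool.Agent.H1.CN.MNR

/-!
# (RPF) the functional on products of local elements
-/

set_option autoImplicit false

open MeasureTheory Set Filter
open scoped Real

namespace Pool.Agent.H60.AD

open Pool.Agent.H31.CN Pool.Agent.H95.AD Pool.Agent.H65.AD Pool.Agent.H1.CN

theorem rpf_loc {p N : ℕ} (hp : p.Prime) (hpN : Nat.Coprime p N) (q : ℕ → ℕ → ℝ) (j : ℕ)
    {W : ℕ → ℕ → ℝ} {r : GR} (h : Rp (p * N) W r) :
    Rp N (fun e A => W e A * loc q p e A) (r * (gel q j p * E 0 (j * Real.log p))) := by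
  have hp0 : (0 : ℝ) < p := by exact_mod_cast hp.pos
  have h1 := Rp.sum (N := N) (Finset.range 3 ×ˢ Finset.range 3)
    (fun x e A => W e A * if p ^ x.1 ∣ A ∧ p ^ x.2 ∣ e then q x.1 x.2 else 0)
    (fun x => r * ((q x.1 x.2 / ((p : ℝ) ^ x.1 * (p : ℝ) ^ x.2)) •
        E (x.1 * Real.log p) ((x.1 + 2 * x.2) * Real.log p)))
    (fun x _ => h.mulk hp hpN x.1 x.2 (q x.1 x.2))
  refine h1.congr (fun e A => ?_) ?_
  · rw [Finset.sum_product, loc, Finset.mul_sum]
    refine Finset.sum_congr rfl fun i _ => ?_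
    rw [Finset.mul_sum]
  · rw [Finset.sum_product, gel, Finset.sum_mul, Finset.mul_sum]
    refine Finset.sum_congr rfl fun i _ => ?_
    rw [Finset.sum_mul, Finset.mul_sum]
    refine Finset.sum_congr rfl fun k _ => ?_
    rw [smul_mul_assoc, E_mul, add_zero, pow_add]
    congr 3
    ring

theorem rpf_prod (S : Finset ℕ) (hS : ∀ p ∈ S, p.Prime) (q : ℕ → ℕ → ℕ → ℝ) (j : ℕ → ℕ) :
    ∀ (W : ℕ → ℕ → ℝ) (r : GR), Rp (∏ p ∈ S, p) W r →
      Rp 1 (fun e A => W e A * ∏ p ∈ S, loc (q p) p e A)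
        (r * ((∏ p ∈ S, gel (q p) (j p) p) * E 0 (∑ p ∈ S, j p * Real.log p))) := by
  classical
  induction S using Finset.induction_on with
  | empty =>
    intro W r h
    simpa [E_zero] using h
  | insert p S hpS ih =>
    intro W r h
    rw [Finset.prod_insert hpS] at h
    have hp := hS p (Finset.mem_insert_self _ _)
    have hS' : ∀ q ∈ S, q.Prime := fun q hq => hS q (Finset.mem_insert_of_mem hq)
    have hc : Nat.Coprime p (∏ p ∈ S, p) := by
      refine Nat.Coprime.prod_right fun q hq => ?_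
      refine (Nat.coprime_primes hp (hS' q hq)).2 ?_
      rintro rfl
      exact hpS hq
    refine (ih hS' _ _ (rpf_loc hp hc (q p) (j p) h)).congr (fun e A => ?_) ?_
    · rw [Finset.prod_insert hpS, mul_assoc]
    · rw [Finset.prod_insert hpS, Finset.sum_insert hpS]
      have hE : E 0 (j p * Real.log p + ∑ p ∈ S, j p * Real.log p) =
          E 0 (j p * Real.log p) * E 0 (∑ p ∈ S, j p * Real.log p) := by
        rw [E_mul, add_zero]
      rw [hE]
      ring

theorem pf_RPF (hSSA : T_SSA) : T_RPF := by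
  classical
  intro S q j u hS hu
  have hc : (0 : ℝ) < ((∏ p ∈ S, p ^ j p : ℕ) : ℝ) := by
    have : 0 < ∏ p ∈ S, p ^ j p := Finset.prod_pos fun p hp => pow_pos (hS p hp).pos _
    exact_mod_cast this
  have h0 : Rp (∏ p ∈ S, p) (fun _ _ => 1) (1 : GR) := by
    have := Rp.ind (N := ∏ p ∈ S, p) (W := fun _ _ => 1) 1 1 1 le_rfl le_rfl
      (Nat.coprime_one_left _) (Nat.coprime_one_left _) (by intro e A; simp)
    refine this.congr (fun _ _ => rfl) ?_
    simp [E_zero]
  have h1 := rpf_prod S hS q j _ _ h0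
  have h2 := hs_Rp hSSA u hu _ hc h1
  have hlog : Real.log ((∏ p ∈ S, p ^ j p : ℕ) : ℝ) = ∑ p ∈ S, j p * Real.log p := by
    push_cast
    rw [Real.log_prod]
    · refine Finset.sum_congr rfl fun p _ => ?_
      rw [Real.log_pow]
    · intro p hp
      have : (0 : ℝ) < p := by exact_mod_cast (hS p hp).pos
      positivity
  have h3 : (1 : GR) * ((∏ p ∈ S, gel (q p) (j p) p) * E 0 (∑ p ∈ S, j p * Real.log p)) *
      E 0 (-Real.log ((∏ p ∈ S, p ^ j p : ℕ) : ℝ)) = ∏ p ∈ S, gel (q p) (j p) p := by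
    rw [hlog, one_mul, mul_assoc, E_mul, add_zero, add_neg_cancel, E_zero, mul_one]
  rw [h3] at h2
  refine h2.congr_fun fun y => ?_
  unfold kM
  ring

end Pool.Agent.H60.AD
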